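import Mathlib

set_option autoImplicit false
set_option linter.unusedSectionVars false

open Set Filter Topology Metric Module

namespace Pool.Agent.AffFib

/-- If `1 + z T` is injective for all `|z| ≤ 2`, then `|det (1+T)| ≥ 2^{-n}`. -/
theorem det_lower {E : Type*} [AddCommGroup E] [Module ℂ E] [FiniteDimensional ℂ E]
    (T : E →ₗ[ℂ] E)
    (hT : ∀ z : ℂ, ‖z‖ ≤ 2 → ∀ x : E, x + z • T x = 0 → x = 0) :
    (1 / 2 : ℝ) ^ (finrank ℂ E) ≤ ‖LinearMap.det (1 + T)‖ := by
  have hroots : ∀ μ ∈ T.charpoly.roots, ‖μ‖ ≤ 1 / 2 := by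
    intro μ hμ
    by_contra hcon
    push Not at hcon
    have hμ0 : μ ≠ 0 := by
      rintro rfl
      norm_num at hcon
    rw [Polynomial.mem_roots (LinearMap.charpoly_monic T).ne_zero] at hμ
    have hev : Module.End.HasEigenvalue T μ := by
      rw [Module.End.hasEigenvalue_iff_isRoot_charpoly]
      exact hμ
    obtain ⟨x, hx⟩ := hev.exists_hasEigenvector
    have hx0 := hx.2
    have hTx := hx.apply_eq_smul
    refine hx0 (hT (-μ⁻¹) ?_ x ?_)
    · rw [norm_neg, norm_inv, inv_le_comm₀ (norm_pos_iff.mpr hμ0) (by norm_num)]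
      linarith
    · rw [hTx, smul_smul, neg_mul, inv_mul_cancel₀ hμ0]
      simp
  have hsplit := IsAlgClosed.splits T.charpoly
  have hcard : Multiset.card T.charpoly.roots = finrank ℂ E := by
    rw [← LinearMap.charpoly_natDegree T]
    exact hsplit.natDegree_eq_card_roots.symm
  have heval := LinearMap.eval_charpoly T (-1)
  have hprod : T.charpoly.eval (-1) = (T.charpoly.roots.map (fun a => -1 - a)).prod := by
    have := hsplit.eval_eq_prod_roots_of_monic (LinearMap.charpoly_monic T) (-1)
    exact this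
  have hneg : (algebraMap ℂ (Module.End ℂ E) (-1) - T) = (-1 : ℂ) • (1 + T) := by
    ext x
    simp
    abel
  rw [hprod] at heval
  have h1 : ‖(T.charpoly.roots.map (fun a => -1 - a)).prod‖ = ‖LinearMap.det (1 + T)‖ := by
    rw [heval]
    erw [hneg]
    rw [LinearMap.det_smul, norm_mul, norm_pow]
    simp
  rw [← h1, ← hcard]
  have gen : ∀ s : Multiset ℂ, (∀ μ ∈ s, ‖μ‖ ≤ 1 / 2) →
      (1 / 2 : ℝ) ^ (Multiset.card s) ≤ ‖(s.map (fun a => -1 - a)).prod‖ := by
    intro s
    induction s using Multiset.induction_on with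
    | empty => intro _; simp
    | cons a s ih =>
      intro h
      rw [Multiset.map_cons, Multiset.prod_cons, Multiset.card_cons, norm_mul, pow_succ,
        mul_comm]
      have ha : ‖a‖ ≤ 1 / 2 := h a (Multiset.mem_cons_self a s)
      have h2 : (1 / 2 : ℝ) ≤ ‖-1 - a‖ := by
        have := norm_sub_norm_le (-1 : ℂ) a
        rw [norm_neg, norm_one] at this
        linarith
      have h3 := ih (fun μ hμ => h μ (Multiset.mem_cons_of_mem hμ))
      gcongr
  exact gen _ hroots

end Pool.Agent.AffFib
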