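import Pool.Agent.AffFib.Slice
import Pool.Agent.AffFib.Lin

set_option autoImplicit false
set_option linter.unusedSectionVars false

open Set Filter Topology Metric Module

namespace Pool.Agent.AffFib

variable {E F : Type*} [NormedAddCommGroup E] [NormedSpace ℂ E] [FiniteDimensional ℂ E]
  [NormedAddCommGroup F] [NormedSpace ℂ F] [FiniteDimensional ℂ F]

/-- rank of the derivative -/
noncomputable def rk (Γ : E → F) (ξ : E) : ℕ :=
  finrank ℂ (LinearMap.range ((fderiv ℂ Γ ξ : E →L[ℂ] F) : E →ₗ[ℂ] F))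

/-- kernel of the derivative -/
noncomputable def K (Γ : E → F) (ξ : E) : Submodule ℂ E :=
  LinearMap.ker ((fderiv ℂ Γ ξ : E →L[ℂ] F) : E →ₗ[ℂ] F)

theorem mem_K {Γ : E → F} {ξ v : E} : v ∈ K Γ ξ ↔ fderiv ℂ Γ ξ v = 0 := by
  simp [K]

theorem finrank_K (Γ : E → F) (ξ : E) : rk Γ ξ + finrank ℂ (K Γ ξ) = finrank ℂ E :=
  LinearMap.finrank_range_add_finrank_ker _

/-- Affine fibration data -/
structure AF (Ω : Set E) (Γ : E → F) (k : ℕ) : Prop where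
  isOpen : IsOpen Ω
  preconn : IsPreconnected Ω
  analytic : AnalyticOnNhd ℂ Γ Ω
  rank_le : ∀ ξ ∈ Ω, rk Γ ξ ≤ k
  exists_rank : ∃ ξ ∈ Ω, rk Γ ξ = k
  level : ∀ ξ ∈ Ω, rk Γ ξ = k → ∀ η ∈ Ω, (Γ η = Γ ξ ↔ η - ξ ∈ K Γ ξ)

namespace AF

variable {Ω : Set E} {Γ : E → F} {k : ℕ}

/-- the good (maximal rank) points -/
def G (Ω : Set E) (Γ : E → F) (k : ℕ) : Set E := {ξ | ξ ∈ Ω ∧ rk Γ ξ = k}

theorem exists_minor (h : AF Ω Γ k) {ξ : E} (hk : rk Γ ξ = k) :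
    ∃ m : E → ℂ, AnalyticOnNhd ℂ m Ω ∧ m ξ ≠ 0 ∧ ∀ x ∈ Ω, m x ≠ 0 → rk Γ x = k := by
  classical
  set T : E →ₗ[ℂ] F := ((fderiv ℂ Γ ξ : E →L[ℂ] F) : E →ₗ[ℂ] F) with hT
  have hfin : finrank ℂ (LinearMap.range T) = k := hk
  let e : (Fin k → ℂ) ≃ₗ[ℂ] LinearMap.range T :=
    LinearEquiv.ofFinrankEq _ _ (by rw [hfin]; simp)
  obtain ⟨P₀, hP₀⟩ := LinearMap.exists_rightInverse_of_surjective T.rangeRestrict
    (LinearMap.range_rangeRestrict T)
  let P : (Fin k → ℂ) →ₗ[ℂ] E := P₀ ∘ₗ e.toLinearMap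
  let R : (Fin k → ℂ) →ₗ[ℂ] F := (LinearMap.range T).subtype ∘ₗ e.toLinearMap
  have hR : LinearMap.ker R = ⊥ := by
    rw [LinearMap.ker_eq_bot]
    exact (Submodule.injective_subtype _).comp e.injective
  obtain ⟨Q, hQ⟩ := LinearMap.exists_leftInverse_of_injective R hR
  have hTP : T ∘ₗ P = R := by
    refine LinearMap.ext fun c => ?_
    have := LinearMap.congr_fun hP₀ (e c)
    have h2 := congrArg Subtype.val this
    simpa [P, R] using h2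
  let P' : (Fin k → ℂ) →L[ℂ] E := LinearMap.toContinuousLinearMap P
  let Q' : F →L[ℂ] (Fin k → ℂ) := LinearMap.toContinuousLinearMap Q
  let M : E → Matrix (Fin k) (Fin k) ℂ := fun x i j =>
    Q' (fderiv ℂ Γ x (P' (Pi.single j 1))) i
  have hM : ∀ x, M x = LinearMap.toMatrix' (Q ∘ₗ (fderiv ℂ Γ x : E →ₗ[ℂ] F) ∘ₗ P) := by
    intro x
    ext i j
    simp [M, LinearMap.toMatrix'_apply, P', Q']
  have hMan : ∀ i j, AnalyticOnNhd ℂ (fun x => M x i j) Ω := by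
    intro i j
    have h1 : AnalyticOnNhd ℂ (fderiv ℂ Γ) Ω := h.analytic.fderiv
    let L : (E →L[ℂ] F) →L[ℂ] ℂ :=
      (ContinuousLinearMap.proj i).comp
        (Q'.comp (ContinuousLinearMap.apply ℂ F (P' (Pi.single j 1))))
    have h2 : (fun x => M x i j) = fun x => L (fderiv ℂ Γ x) := by
      funext x
      simp [M, L]
    rw [h2]
    intro x hx
    exact (L.analyticAt _).fun_comp (h1 x hx)
  refine ⟨fun x => (M x).det, ?_, ?_, ?_⟩
  · have : (fun x => (M x).det) = fun x => ∑ σ : Equiv.Perm (Fin k),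
        ((Equiv.Perm.sign σ : ℤ) : ℂ) * ∏ i, M x (σ i) i := by
      funext x
      rw [Matrix.det_apply']
    rw [this]
    apply Finset.analyticOnNhd_fun_sum
    intro σ _
    apply AnalyticOnNhd.mul analyticOnNhd_const
    apply Finset.analyticOnNhd_fun_prod
    intro i _
    exact hMan _ _
  · show (M ξ).det ≠ 0
    rw [hM ξ, LinearMap.det_toMatrix']
    have : (Q ∘ₗ (fderiv ℂ Γ ξ : E →ₗ[ℂ] F) ∘ₗ P) = LinearMap.id := by
      rw [← hT, hTP, hQ]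
    rw [this]
    simp
  · intro x hx hmx
    replace hmx : (M x).det ≠ 0 := hmx
    rw [hM x, LinearMap.det_toMatrix'] at hmx
    have hinj : Function.Injective (Q ∘ₗ (fderiv ℂ Γ x : E →ₗ[ℂ] F) ∘ₗ P) := by
      have := LinearMap.isUnit_iff_isUnit_det (Q ∘ₗ (fderiv ℂ Γ x : E →ₗ[ℂ] F) ∘ₗ P)
      have h2 := this.mpr (isUnit_iff_ne_zero.mpr hmx)
      exact ((Module.End.isUnit_iff _).mp h2).1
    have hinj2 : Function.Injective ((fderiv ℂ Γ x : E →ₗ[ℂ] F) ∘ₗ P) := by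
      intro a b hab
      apply hinj
      simp only [LinearMap.comp_apply] at hab ⊢
      rw [hab]
    have h3 := LinearMap.finrank_range_of_inj hinj2
    rw [Module.finrank_fin_fun] at h3
    have h4 : LinearMap.range ((fderiv ℂ Γ x : E →ₗ[ℂ] F) ∘ₗ P) ≤
        LinearMap.range (fderiv ℂ Γ x : E →ₗ[ℂ] F) := LinearMap.range_comp_le_range _ _
    have h5 := Submodule.finrank_mono h4
    rw [h3] at h5
    exact le_antisymm (h.rank_le x hx) h5

theorem G_nhds (h : AF Ω Γ k) {ξ : E} (hξ : ξ ∈ G Ω Γ k) : G Ω Γ k ∈ 𝓝 ξ := by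
  obtain ⟨m, hm, hmξ, hmr⟩ := h.exists_minor hξ.2
  have hc : ContinuousAt m ξ := (hm ξ hξ.1).continuousAt
  filter_upwards [h.isOpen.mem_nhds hξ.1, hc.eventually_ne hmξ] with x hx hmx
  exact ⟨hx, hmr x hx hmx⟩

theorem G_isOpen (h : AF Ω Γ k) : IsOpen (G Ω Γ k) :=
  isOpen_iff_mem_nhds.mpr fun _ hξ => h.G_nhds hξ

theorem G_dense (h : AF Ω Γ k) : Ω ⊆ closure (G Ω Γ k) := by
  intro x hx
  by_contra hcon
  obtain ⟨ξ, hξ, hk⟩ := h.exists_rank
  obtain ⟨m, hm, hmξ, hmr⟩ := h.exists_minor hk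
  apply hmξ
  have hz : m =ᶠ[𝓝 x] 0 := by
    have h1 : (closure (G Ω Γ k))ᶜ ∈ 𝓝 x := isClosed_closure.isOpen_compl.mem_nhds hcon
    filter_upwards [h1, h.isOpen.mem_nhds hx] with y hy hyΩ
    by_contra hmy
    exact hy (subset_closure ⟨hyΩ, hmr y hyΩ hmy⟩)
  exact hm.eqOn_zero_of_preconnected_of_eventuallyEq_zero h.preconn hx hz hξ

theorem finrank_K_eq (h : AF Ω Γ k) {ξ : E} (hξ : ξ ∈ G Ω Γ k) :
    finrank ℂ (K Γ ξ) = finrank ℂ E - k := by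
  have := finrank_K Γ ξ
  rw [hξ.2] at this
  omega

/-- equality of kernels along a level set -/
theorem K_const (h : AF Ω Γ k) {ξ η : E} (hξ : ξ ∈ G Ω Γ k) (hη : η ∈ G Ω Γ k)
    (hηξ : Γ η = Γ ξ) : K Γ η = K Γ ξ := by
  have hle : K Γ η ≤ K Γ ξ := by
    intro v hv
    have hcont : Tendsto (fun t : ℂ => η + t • v) (𝓝[≠] 0) (𝓝 η) := by
      have : Tendsto (fun t : ℂ => η + t • v) (𝓝 0) (𝓝 (η + (0 : ℂ) • v)) :=
        (continuous_const.add (continuous_id.smul continuous_const)).tendsto 0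
      rw [zero_smul, add_zero] at this
      exact this.mono_left nhdsWithin_le_nhds
    have h1 : ∀ᶠ t : ℂ in 𝓝[≠] 0, η + t • v ∈ Ω := hcont (h.isOpen.mem_nhds hη.1)
    obtain ⟨t, ht, ht0⟩ := (h1.and self_mem_nhdsWithin).exists
    have ht0' : t ≠ 0 := ht0
    have h2 : Γ (η + t • v) = Γ η := by
      rw [h.level η hη.1 hη.2 _ ht, add_sub_cancel_left]
      exact (K Γ η).smul_mem t hv
    have h3 := (h.level ξ hξ.1 hξ.2 _ ht).mp (h2.trans hηξ)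
    have h4 := (h.level ξ hξ.1 hξ.2 _ hη.1).mp hηξ
    have h5 : t • v ∈ K Γ ξ := by
      have := (K Γ ξ).sub_mem h3 h4
      simpa using this
    have := (K Γ ξ).smul_mem t⁻¹ h5
    rwa [smul_smul, inv_mul_cancel₀ ht0', one_smul] at this
  apply Submodule.eq_of_le_of_finrank_eq hle
  rw [h.finrank_K_eq hξ, h.finrank_K_eq hη]

theorem Gamma_add (h : AF Ω Γ k) {ξ v : E} (hξ : ξ ∈ G Ω Γ k) (hv : v ∈ K Γ ξ)
    (hΩ : ξ + v ∈ Ω) : Γ (ξ + v) = Γ ξ := by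
  rw [h.level ξ hξ.1 hξ.2 _ hΩ, add_sub_cancel_left]
  exact hv

end AF

end Pool.Agent.AffFib
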