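import Pool.Agent.AffFib.Triv

set_option autoImplicit false
set_option linter.unusedSectionVars false

open Set Filter Topology Metric Module Asymptotics

namespace Pool.Agent.AffFib

variable {E F : Type*} [NormedAddCommGroup E] [NormedSpace ℂ E] [FiniteDimensional ℂ E]
  [NormedAddCommGroup F] [NormedSpace ℂ F] [FiniteDimensional ℂ F]

variable {Ω : Set E} {Γ : E → F} {k d : ℕ}

/-- Frames give a trivialisation. -/
theorem triv_of_frame {U : Set E} (hU : IsOpen U) (hUΩ : U ⊆ Ω)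
    {v : Fin d → E → E} (hv : ∀ i, ContinuousOn (v i) U)
    (hli : ∀ η ∈ U, LinearIndependent ℂ (fun i => v i η))
    (hspan : ∀ η ∈ U, rk Γ η = k → Submodule.span ℂ (Set.range (fun i => v i η)) = K Γ η)
    {η : E} (hη : η ∈ U) :
    ∃ (U' : Set E) (p : E →L[ℂ] (Fin d → ℂ)) (Q : E → ((Fin d → ℂ) →L[ℂ] E)),
      Triv Ω Γ k d U' p Q ∧ η ∈ U' := by
  classical
  let V : E → ((Fin d → ℂ) →L[ℂ] E) := fun u =>
    LinearMap.toContinuousLinearMap (Fintype.linearCombination ℂ (fun i => v i u))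
  have hVapp : ∀ u c, V u c = ∑ i, c i • v i u := by
    intro u c
    simp [V, Fintype.linearCombination_apply]
  have hVc : ContinuousOn V U := by
    rw [continuousOn_clm_apply]
    intro c
    simp only [hVapp]
    exact continuousOn_finsetSum _ fun i _ => (hv i).const_smul (c i)
  have hinj : ∀ u ∈ U, LinearMap.ker ((V u : (Fin d → ℂ) →L[ℂ] E) : (Fin d → ℂ) →ₗ[ℂ] E) = ⊥ := by
    intro u hu
    rw [LinearMap.ker_eq_bot']
    intro c hc
    have h1 := Fintype.linearIndependent_iff.mp (hli u hu) c (by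
      rw [← hVapp]; exact hc)
    funext i
    exact h1 i
  obtain ⟨p₀, hp₀⟩ := LinearMap.exists_leftInverse_of_injective _ (hinj η hη)
  let p : E →L[ℂ] (Fin d → ℂ) := LinearMap.toContinuousLinearMap p₀
  have hp : ∀ c, p (V η c) = c := fun c => LinearMap.congr_fun hp₀ c
  let M : E → ((Fin d → ℂ) →L[ℂ] (Fin d → ℂ)) := fun u => p.comp (V u)
  have hMc : ContinuousOn M U := by
    intro u hu
    exact (continuousWithinAt_const (b := p)).clm_comp (hVc u hu)
  have hMη : M η = 1 := by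
    ext1 c
    exact hp c
  refine ⟨U ∩ M ⁻¹' {x | IsUnit x}, p, fun u => (V u).comp (Ring.inverse (M u)), ?_, hη, ?_⟩
  · refine ⟨hMc.isOpen_inter_preimage hU Units.isOpen, inter_subset_left.trans hUΩ, ?_, ?_, ?_⟩
    · rintro u ⟨hu, hMu⟩
      have hMu' : IsUnit (M u) := hMu
      have h1 : ContinuousWithinAt (fun u => Ring.inverse (M u)) (U ∩ M ⁻¹' {x | IsUnit x}) u := by
        obtain ⟨x, hx⟩ := hMu'
        have h2 : ContinuousAt Ring.inverse (M u) := by
          rw [← hx]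
          exact NormedRing.inverse_continuousAt x
        exact h2.comp_continuousWithinAt ((hMc u hu).mono inter_subset_left)
      exact ((hVc u hu).mono inter_subset_left).clm_comp h1
    · rintro u ⟨hu, hMu⟩ c
      have hMu' : IsUnit (M u) := hMu
      have h1 : M u * Ring.inverse (M u) = 1 := Ring.mul_inverse_cancel _ hMu'
      have h2 := congrArg (fun T : (Fin d → ℂ) →L[ℂ] (Fin d → ℂ) => T c) h1
      exact h2
    · rintro u ⟨hu, hMu⟩ hr
      have hMu' : IsUnit (M u) := hMu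
      rw [← hspan u hu hr, ← Fintype.range_linearCombination]
      apply le_antisymm
      · rintro _ ⟨c, rfl⟩
        exact ⟨Ring.inverse (M u) c, rfl⟩
      · rintro _ ⟨c, rfl⟩
        refine ⟨M u c, ?_⟩
        have h1 : Ring.inverse (M u) * M u = 1 := Ring.inverse_mul_cancel _ hMu'
        have h2 := congrArg (fun T : (Fin d → ℂ) →L[ℂ] (Fin d → ℂ) => T c) h1
        have h3 : Ring.inverse (M u) (M u c) = c := h2
        show V u (Ring.inverse (M u) (M u c)) = _
        rw [h3]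
        rfl
  · show IsUnit (M η)
    rw [hMη]
    exact isUnit_one

/-- A trivialisation gives frames. -/
theorem frame_of_triv {U : Set E} {p : E →L[ℂ] (Fin d → ℂ)} {Q : E → ((Fin d → ℂ) →L[ℂ] E)}
    (t : Triv Ω Γ k d U p Q) :
    ∃ v : Fin d → E → E, (∀ i, ContinuousOn (v i) U) ∧
      (∀ η ∈ U, LinearIndependent ℂ (fun i => v i η)) ∧
      (∀ η ∈ U, rk Γ η = k →
        Submodule.span ℂ (Set.range (fun i => v i η)) = K Γ η) := by
  classical
  refine ⟨fun i u => Q u (Pi.single i 1), fun i => t.cont_apply _, ?_, ?_⟩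
  · intro η hη
    apply LinearIndependent.of_comp (p : E →ₗ[ℂ] (Fin d → ℂ))
    have : ((p : E →ₗ[ℂ] (Fin d → ℂ)) ∘ fun i => Q η (Pi.single i 1)) =
        fun i => (Pi.single i 1 : Fin d → ℂ) := by
      funext i
      exact t.pQ η hη _
    rw [this]
    exact Pi.linearIndependent_single_one (Fin d) ℂ
  · intro η hη hr
    rw [← t.range η hη hr, ← Fintype.range_linearCombination]
    congr 1
    refine LinearMap.ext fun c => ?_
    rw [Fintype.linearCombination_apply]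
    have : c = ∑ i, c i • (Pi.single i 1 : Fin d → ℂ) := by
      conv_lhs => rw [pi_eq_sum_univ c]
      apply Finset.sum_congr rfl
      intro i _
      congr 1
      funext j
      simp [Pi.single_apply, eq_comm]
    conv_rhs => rw [this]
    simp

/-- Good points are dense on lines in the kernel direction. -/
theorem line_dense (h : AF Ω Γ k) {x v : E} (hx : x ∈ AF.G Ω Γ k) {r : ℝ}
    (hball : ∀ ζ ∈ ball (0 : ℂ) r, x + ζ • v ∈ Ω) {l : ℂ} (hl : l ∈ ball (0 : ℂ) r) :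
    ∃ᶠ ζ in 𝓝 l, x + ζ • v ∈ AF.G Ω Γ k := by
  obtain ⟨m, hm, hmx, hmr⟩ := h.exists_minor hx.2
  have hr : 0 < r := by
    rw [mem_ball] at hl
    exact lt_of_le_of_lt dist_nonneg hl
  have hline : ∀ ζ : ℂ, AnalyticAt ℂ (fun ζ : ℂ => x + ζ • v) ζ := by
    intro ζ
    fun_prop
  have hmline : AnalyticOnNhd ℂ (fun ζ : ℂ => m (x + ζ • v)) (ball 0 r) := by
    intro ζ hζ
    exact AnalyticAt.fun_comp (hm _ (hball ζ hζ)) (hline ζ)
  by_contra hcon
  rw [not_frequently] at hcon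
  have hz : (fun ζ : ℂ => m (x + ζ • v)) =ᶠ[𝓝 l] 0 := by
    filter_upwards [hcon, isOpen_ball.mem_nhds hl] with ζ hζ hζb
    by_contra hne
    exact hζ ⟨hball ζ hζb, hmr _ (hball ζ hζb) hne⟩
  have := hmline.eqOn_zero_of_preconnected_of_eventuallyEq_zero
    (convex_ball _ _).isPreconnected hl hz (mem_ball_self hr)
  simp only [zero_smul, add_zero, Pi.zero_apply] at this
  exact hmx this

/-- Regular points. -/
def Reg (Ω : Set E) (Γ : E → F) (k d : ℕ) (η : E) : Prop :=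
  ∃ (U : Set E) (p : E →L[ℂ] (Fin d → ℂ)) (Q : E → ((Fin d → ℂ) →L[ℂ] E)),
    Triv Ω Γ k d U p Q ∧ η ∈ U

theorem main (h : AF Ω Γ k) (hk : k < finrank ℂ E) (hd : d = finrank ℂ E - k) {ξ₀ : E}
    (hξ₀ : ξ₀ ∈ Ω) (hs : ¬ Reg Ω Γ k d ξ₀) :
    ∃ v : E, v ≠ 0 ∧ ∃ δ > 0, ∀ l : ℂ, ‖l‖ < δ →
      ξ₀ + l • v ∈ Ω ∧ ¬ Reg Ω Γ k d (ξ₀ + l • v) := by
  -- a sequence of good points and unit kernel vectors
  obtain ⟨x, hxG, hxlim⟩ := mem_closure_iff_seq_limit.mp (h.G_dense hξ₀)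
  have hunit : ∀ n, ∃ v : E, v ∈ K Γ (x n) ∧ ‖v‖ = 1 := by
    intro n
    have h1 : 0 < finrank ℂ (K Γ (x n)) := by
      rw [h.finrank_K_eq (hxG n)]
      omega
    have : Nontrivial (K Γ (x n)) := Module.finrank_pos_iff.mp h1
    obtain ⟨v, hv⟩ := exists_ne (0 : K Γ (x n))
    have hv0 : (v : E) ≠ 0 := by
      intro hcon
      exact hv (Subtype.ext hcon)
    refine ⟨((‖(v : E)‖ : ℂ)⁻¹) • (v : E), (K Γ (x n)).smul_mem _ v.2, ?_⟩
    rw [norm_smul, norm_inv, Complex.norm_real, norm_norm]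
    exact inv_mul_cancel₀ (norm_ne_zero_iff.mpr hv0)
  choose v hvK hv1 using hunit
  have : ProperSpace E := FiniteDimensional.proper ℂ E
  obtain ⟨v₀, hv₀, φ, hφ, hvlim⟩ := (isCompact_sphere (0 : E) 1).tendsto_subseq
    (fun n => by rw [mem_sphere_zero_iff_norm]; exact hv1 n)
  rw [mem_sphere_zero_iff_norm] at hv₀
  have hv₀0 : v₀ ≠ 0 := by
    intro hcon
    rw [hcon, norm_zero] at hv₀
    norm_num at hv₀
  obtain ⟨R, hR, hRΩ⟩ := Metric.isOpen_iff.mp h.isOpen ξ₀ hξ₀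
  have hin : ∀ l : ℂ, ‖l‖ < R → ξ₀ + l • v₀ ∈ Ω := by
    intro l hl
    apply hRΩ
    rw [mem_ball, dist_eq_norm, add_sub_cancel_left, norm_smul, hv₀, mul_one]
    exact hl
  refine ⟨v₀, hv₀0, R / 4, by positivity, fun l hl => ⟨hin l (by linarith), ?_⟩⟩
  rintro ⟨U, p, Q, t, hηU⟩
  apply hs
  set η : E := ξ₀ + l • v₀ with hη
  -- v₀ is in the limiting kernel at η
  have hv₀mem : Q η (p v₀) = v₀ := by
    -- choose ζ n close to l
    have hch : ∀ n : ℕ, ∃ ζ : ℂ, ‖ζ - l‖ < 1 / ((n : ℝ) + 1) ∧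
        (dist (x (φ n)) ξ₀ < R / 4 → x (φ n) + ζ • v (φ n) ∈ AF.G Ω Γ k) := by
      intro n
      by_cases hn : dist (x (φ n)) ξ₀ < R / 4
      · have hb : ∀ ζ ∈ ball (0 : ℂ) (R / 2), x (φ n) + ζ • v (φ n) ∈ Ω := by
          intro ζ hζ
          rw [mem_ball_zero_iff] at hζ
          apply hRΩ
          rw [mem_ball, dist_eq_norm] at *
          have e : x (φ n) + ζ • v (φ n) - ξ₀ = (x (φ n) - ξ₀) + ζ • v (φ n) := by abel
          rw [e]
          calc _ ≤ ‖x (φ n) - ξ₀‖ + ‖ζ • v (φ n)‖ := norm_add_le _ _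
            _ = ‖x (φ n) - ξ₀‖ + ‖ζ‖ := by rw [norm_smul, hv1, mul_one]
            _ < R := by linarith
        have hl' : l ∈ ball (0 : ℂ) (R / 2) := by
          rw [mem_ball_zero_iff]
          linarith
        have hfr := line_dense h (hxG (φ n)) hb hl'
        have hball : ∀ᶠ ζ in 𝓝 l, ‖ζ - l‖ < 1 / ((n : ℝ) + 1) := by
          have : ball l (1 / ((n : ℝ) + 1)) ∈ 𝓝 l := ball_mem_nhds _ (by positivity)
          filter_upwards [this] with ζ hζ
          rwa [mem_ball, dist_eq_norm] at hζ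
        obtain ⟨ζ, hζ1, hζ2⟩ := (hfr.and_eventually hball).exists
        exact ⟨ζ, hζ2, fun _ => hζ1⟩
      · exact ⟨l, by simp; positivity, fun hh => absurd hh hn⟩
    choose ζ hζ1 hζ2 using hch
    have hζlim : Tendsto ζ atTop (𝓝 l) := by
      rw [tendsto_iff_norm_sub_tendsto_zero]
      exact squeeze_zero (fun n => norm_nonneg _) (fun n => (hζ1 n).le)
        tendsto_one_div_add_atTop_nhds_zero_nat
    have hxφ : Tendsto (fun n => x (φ n)) atTop (𝓝 ξ₀) := hxlim.comp hφ.tendsto_atTop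
    have hvφ : Tendsto (fun n => v (φ n)) atTop (𝓝 v₀) := hvlim
    have hylim : Tendsto (fun n => x (φ n) + ζ n • v (φ n)) atTop (𝓝 η) :=
      hxφ.add (hζlim.smul hvφ)
    have hQlim : Tendsto (fun n => Q (x (φ n) + ζ n • v (φ n)) (p (v (φ n)))) atTop
        (𝓝 (Q η (p v₀))) := by
      have h1 : Tendsto (fun n => Q (x (φ n) + ζ n • v (φ n))) atTop (𝓝 (Q η)) :=
        ((t.cont.continuousAt (t.isOpen.mem_nhds hηU)).tendsto).comp hylim
      have h2 : Tendsto (fun n => p (v (φ n))) atTop (𝓝 (p v₀)) :=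
        (p.continuous.tendsto v₀).comp hvφ
      exact ((isBoundedBilinearMap_apply (𝕜 := ℂ) (E := Fin d → ℂ)
        (F := E)).continuous.tendsto (Q η, p v₀)).comp (h1.prodMk_nhds h2)
    have hev : ∀ᶠ n in atTop, Q (x (φ n) + ζ n • v (φ n)) (p (v (φ n))) = v (φ n) := by
      have hclose : ∀ᶠ n in atTop, dist (x (φ n)) ξ₀ < R / 4 :=
        (tendsto_iff_dist_tendsto_zero.mp hxφ).eventually_lt_const (by positivity)
      filter_upwards [hclose, hylim (t.isOpen.mem_nhds hηU)] with n hn hnU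
      have hG := hζ2 n hn
      have hGx := hxG (φ n)
      have hmemK : ζ n • v (φ n) ∈ K Γ (x (φ n)) := (K Γ _).smul_mem _ (hvK (φ n))
      have hq := h.Gamma_add hGx hmemK hG.1
      have hKK := h.K_const hGx hG hq
      rw [← t.mem_K_iff hnU hG.2, hKK]
      exact hvK (φ n)
    exact tendsto_nhds_unique (hQlim.congr' hev) hvφ |>.symm ▸ rfl
  -- transfer
  have hQc : Q η (p (-(l • v₀))) = -(l • v₀) := by
    rw [map_neg, map_smul, map_neg, map_smul, hv₀mem]
  have hline : ∀ z : ℂ, ‖z‖ ≤ 2 → η + z • Q η (p (-(l • v₀))) ∈ Ω := by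
    intro z hz
    rw [hQc]
    have e : η + z • -(l • v₀) = ξ₀ + ((1 - z) * l) • v₀ := by
      rw [hη, smul_neg, smul_smul, sub_mul, one_mul, sub_smul]
      abel
    rw [e]
    apply hin
    rw [norm_mul]
    have h1 : ‖1 - z‖ ≤ 3 := by
      calc ‖1 - z‖ ≤ ‖(1 : ℂ)‖ + ‖z‖ := norm_sub_le _ _
        _ ≤ 3 := by rw [norm_one]; linarith
    calc ‖1 - z‖ * ‖l‖ ≤ 3 * ‖l‖ := by gcongr
      _ < R := by nlinarith [norm_nonneg l]
  obtain ⟨U', Q', t', hmem⟩ := t.transfer h hd (p (-(l • v₀))) hηU hline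
  refine ⟨U', p, Q', t', ?_⟩
  rw [hQc] at hmem
  have e : η + -(l • v₀) = ξ₀ := by
    rw [hη]
    abel
  rwa [e] at hmem

end Pool.Agent.AffFib
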