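import Pool.Agent.AffFib.Planes

set_option autoImplicit false
set_option linter.unusedSectionVars false

open Set Filter Topology Metric Module

namespace Pool.Agent.AffFib

variable {E F : Type*} [NormedAddCommGroup E] [InnerProductSpace ℂ E] [FiniteDimensional ℂ E]
  [NormedAddCommGroup F] [NormedSpace ℂ F] [FiniteDimensional ℂ F]
variable {Ω : Set E} {Γ : E → F} {k d : ℕ}

/-- A continuous extension of the kernel field to `U`, as a map into the Grassmannian. -/
def Ext (Ω : Set E) (Γ : E → F) (k d : ℕ) (ξ : E) : Prop :=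
  ∃ U : Set E, IsOpen U ∧ ξ ∈ U ∧ U ⊆ Ω ∧ ∃ W : E → Submodule ℂ E,
    (∀ η ∈ U, finrank ℂ (W η) = d) ∧ ContinuousOn (fun η => (W η).starProjection) U ∧
      ∀ η ∈ U, rk Γ η = k → W η = K Γ η

/-- The Kerzman-Stein formula. -/
theorem kerzman (T : E →L[ℂ] E) (W : Submodule ℂ E) (h1 : ∀ x, T x ∈ W) (h2 : ∀ x ∈ W, T x = x) :
    W.starProjection * (1 + T - star T) = T := by
  have hPT : W.starProjection * T = T := by
    ext x
    exact Submodule.starProjection_eq_self_iff.mpr (h1 x)
  have hTP : T * W.starProjection = W.starProjection := by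
    ext x
    exact h2 _ (Submodule.starProjection_apply_mem _ _)
  have hPs : star W.starProjection = W.starProjection := isSelfAdjoint_starProjection W
  have hPTs : W.starProjection * star T = W.starProjection := by
    have := congrArg star hTP
    rwa [star_mul, hPs] at this
  rw [mul_sub, mul_add, mul_one, hPT, hPTs]
  abel

theorem kerzman_unit (T : E →L[ℂ] E) : IsUnit (1 + T - star T) := by
  have hinj : Function.Injective (1 + T - star T : E →L[ℂ] E) := by
    rw [injective_iff_map_eq_zero]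
    intro x hx
    have h1 : inner ℂ x x + (inner ℂ x (T x) - inner ℂ x ((star T) x)) = 0 := by
      have h2 : x + T x - (star T) x = 0 := hx
      rw [← inner_sub_right, ← inner_add_right]
      rw [show x + (T x - (star T) x) = x + T x - (star T) x by abel, h2, inner_zero_right]
    have h3 : inner ℂ x ((star T) x) = (starRingEnd ℂ) (inner ℂ x (T x)) := by
      rw [ContinuousLinearMap.star_eq_adjoint, ContinuousLinearMap.adjoint_inner_right,
        inner_conj_symm]
    have h4 := congrArg Complex.re h1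
    rw [h3] at h4
    simp only [Complex.add_re, Complex.sub_re, Complex.conj_re, sub_self, add_zero,
      Complex.zero_re] at h4
    have h5 : inner ℂ x x = ((‖x‖ ^ 2 : ℝ) : ℂ) := by
      rw [inner_self_eq_norm_sq_to_K]
      norm_cast
    rw [h5, Complex.ofReal_re] at h4
    exact norm_eq_zero.mp (pow_eq_zero_iff (two_ne_zero) |>.mp h4)
  let e := LinearEquiv.ofInjectiveEndo ((1 + T - star T : E →L[ℂ] E) : E →ₗ[ℂ] E) hinj
  let e' := e.toContinuousLinearEquiv
  exact ⟨(ContinuousLinearEquiv.unitsEquiv ℂ E).symm e', by ext x; rfl⟩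

theorem ext_of_reg {ξ : E} (h : Reg Ω Γ k d ξ) : Ext Ω Γ k d ξ := by
  obtain ⟨U, p, Q, t, hξ⟩ := h
  have hr : ∀ η ∈ U, ∀ x, ((Q η).comp p) x ∈
      LinearMap.range ((Q η : (Fin d → ℂ) →L[ℂ] E) : (Fin d → ℂ) →ₗ[ℂ] E) :=
    fun η _ x => ⟨p x, rfl⟩
  have hr2 : ∀ η ∈ U, ∀ x ∈ LinearMap.range ((Q η : (Fin d → ℂ) →L[ℂ] E) : (Fin d → ℂ) →ₗ[ℂ] E),
      ((Q η).comp p) x = x := by
    rintro η hη _ ⟨c, rfl⟩
    show Q η (p (Q η c)) = Q η c
    rw [t.pQ η hη]
  refine ⟨U, t.isOpen, hξ, t.sub,
    fun η => LinearMap.range ((Q η : (Fin d → ℂ) →L[ℂ] E) : (Fin d → ℂ) →ₗ[ℂ] E), ?_, ?_, ?_⟩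
  · intro η hη
    rw [LinearMap.finrank_range_of_inj]
    · simp
    · intro a b hab
      have h1 : Q η a = Q η b := hab
      rw [← t.pQ η hη a, h1, t.pQ η hη b]
  · have hT : ContinuousOn (fun η => (Q η).comp p) U := fun u hu =>
      (t.cont u hu).clm_comp continuousWithinAt_const
    have hS : ContinuousOn (fun η => 1 + (Q η).comp p - star ((Q η).comp p)) U :=
      (continuousOn_const.add hT).sub (continuous_star.comp_continuousOn hT)
    have hI : ContinuousOn (fun η => Ring.inverse (1 + (Q η).comp p - star ((Q η).comp p))) U := by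
      intro u hu
      obtain ⟨x, hx⟩ := kerzman_unit ((Q u).comp p)
      have h2 : ContinuousAt Ring.inverse (1 + (Q u).comp p - star ((Q u).comp p)) := by
        rw [← hx]
        exact NormedRing.inverse_continuousAt x
      exact h2.comp_continuousWithinAt (f := fun η => 1 + (Q η).comp p - star ((Q η).comp p))
        (hS u hu)
    refine (hT.mul hI).congr ?_
    intro η hη
    have h1 := kerzman ((Q η).comp p) _ (hr η hη) (hr2 η hη)
    have h2 := Ring.mul_inverse_cancel _ (kerzman_unit ((Q η).comp p))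
    calc _ = Submodule.starProjection _ * ((1 + (Q η).comp p - star ((Q η).comp p)) *
          Ring.inverse (1 + (Q η).comp p - star ((Q η).comp p))) := by rw [h2, mul_one]
      _ = _ := by
        rw [← mul_assoc, h1]
        rfl
  · intro η hη hrk
    exact t.range η hη hrk

theorem reg_of_ext {ξ : E} (h : Ext Ω Γ k d ξ) : Reg Ω Γ k d ξ := by
  obtain ⟨U, hU, hξ, hUΩ, W, hW, hc, hK⟩ := h
  let b := (stdOrthonormalBasis ℂ (W ξ)).reindex (finCongr (hW ξ hξ))
  let v : Fin d → E → E := fun i η => (W η).starProjection (b i : E)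
  have hv : ∀ i, ContinuousOn (v i) U := fun i => hc.clm_apply continuousOn_const
  have hvξ : (fun i => v i ξ) = fun i => (b i : E) := by
    funext i
    exact Submodule.starProjection_eq_self_iff.mpr (b i).2
  have hbl : LinearIndependent ℂ (fun i => (b i : E)) :=
    (b.orthonormal.comp_linearIsometry (W ξ).subtypeₗᵢ).linearIndependent
  have hvv : ContinuousOn (fun η => fun i => v i η) U := continuousOn_pi.mpr hv
  have hop := hvv.isOpen_inter_preimage hU (isOpen_setOfPred_linearIndependent (𝕜 := ℂ) (ι := Fin d) (E := E))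
  have hsp : ∀ η ∈ U ∩ (fun η => fun i => v i η) ⁻¹' {f : Fin d → E | LinearIndependent ℂ f}, rk Γ η = k →
      Submodule.span ℂ (Set.range (fun i => v i η)) = K Γ η := by
    intro η hη hr
    rw [← hK η hη.1 hr]
    apply Submodule.eq_of_le_of_finrank_eq
    · rw [Submodule.span_le]
      rintro _ ⟨i, rfl⟩
      exact Submodule.starProjection_apply_mem _ _
    · have h1 : LinearIndependent ℂ (fun i => v i η) := hη.2
      rw [finrank_span_eq_card h1, Fintype.card_fin, hW η hη.1]
  have hξU : ξ ∈ U ∩ (fun η => fun i => v i η) ⁻¹' {f : Fin d → E | LinearIndependent ℂ f} := by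
    refine ⟨hξ, ?_⟩
    show LinearIndependent ℂ (fun i => v i ξ)
    rw [hvξ]
    exact hbl
  obtain ⟨U', p, Q, t, ht⟩ := triv_of_frame (k := k) (Γ := Γ) (Ω := Ω) hop (inter_subset_left.trans hUΩ)
    (fun i => (hv i).mono inter_subset_left) (fun η hη => hη.2) hsp hξU
  exact ⟨U', p, Q, t, ht⟩

theorem ext_iff_reg {ξ : E} : Ext Ω Γ k d ξ ↔ Reg Ω Γ k d ξ := ⟨reg_of_ext, ext_of_reg⟩

end Pool.Agent.AffFib
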