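import Pool.Agent.AffFib.Final

set_option autoImplicit false
set_option linter.unusedSectionVars false

open Set Filter Topology Metric Module

namespace Pool.Agent.AffFib

section Move

variable {E F : Type*} [NormedAddCommGroup E] [NormedSpace ℂ E] [FiniteDimensional ℂ E]
  [NormedAddCommGroup F] [NormedSpace ℂ F] [FiniteDimensional ℂ F]
variable {Ω : Set E} {Γ : E → F} {k d : ℕ}

/-- Regularity at `ξ₀ + w` gives regularity at `ξ₀`, `w` a limit of kernel vectors. -/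
theorem move (h : AF Ω Γ k) (hd : d = finrank ℂ E - k) {ξ₀ w : E} {x v : ℕ → E} {R : ℝ}
    (hRΩ : ball ξ₀ R ⊆ Ω) (hxG : ∀ n, x n ∈ AF.G Ω Γ k) (hx : Tendsto x atTop (𝓝 ξ₀))
    (hvK : ∀ n, v n ∈ K Γ (x n)) (hv : Tendsto v atTop (𝓝 w)) (hw : ‖w‖ < R / 4)
    (hreg : Reg Ω Γ k d (ξ₀ + w)) : Reg Ω Γ k d ξ₀ := by
  have hR : 0 < R := by
    have := norm_nonneg w
    linarith
  obtain ⟨U, p, Q, t, hηU⟩ := hreg
  set η : E := ξ₀ + w with hη
  have hwmem : Q η (p w) = w := by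
    -- choose ζ n close to 1
    have hch : ∀ n : ℕ, ∃ ζ : ℂ, ‖ζ - 1‖ < 1 / ((n : ℝ) + 1) ∧
        (dist (x n) ξ₀ < R / 4 → ‖v n‖ < R / 4 → x n + ζ • v n ∈ AF.G Ω Γ k) := by
      intro n
      by_cases hn : dist (x n) ξ₀ < R / 4 ∧ ‖v n‖ < R / 4
      · have hb : ∀ ζ ∈ ball (0 : ℂ) 2, x n + ζ • v n ∈ Ω := by
          intro ζ hζ
          rw [mem_ball_zero_iff] at hζ
          apply hRΩ
          rw [mem_ball, dist_eq_norm]
          have e : x n + ζ • v n - ξ₀ = (x n - ξ₀) + ζ • v n := by abel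
          rw [e]
          have h1 := hn.1
          rw [dist_eq_norm] at h1
          have h2 : ‖ζ‖ * ‖v n‖ ≤ 2 * ‖v n‖ := by
            have := norm_nonneg (v n)
            gcongr
          calc _ ≤ ‖x n - ξ₀‖ + ‖ζ • v n‖ := norm_add_le _ _
            _ = ‖x n - ξ₀‖ + ‖ζ‖ * ‖v n‖ := by rw [norm_smul]
            _ < R := by linarith [hn.2]
        have h1' : (1 : ℂ) ∈ ball (0 : ℂ) 2 := by
          rw [mem_ball_zero_iff, norm_one]
          norm_num
        have hfr := line_dense h (hxG n) hb h1'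
        have hball : ∀ᶠ ζ in 𝓝 (1 : ℂ), ‖ζ - 1‖ < 1 / ((n : ℝ) + 1) := by
          have : ball (1 : ℂ) (1 / ((n : ℝ) + 1)) ∈ 𝓝 (1 : ℂ) := ball_mem_nhds _ (by positivity)
          filter_upwards [this] with ζ hζ
          rwa [mem_ball, dist_eq_norm] at hζ
        obtain ⟨ζ, hζ1, hζ2⟩ := (hfr.and_eventually hball).exists
        exact ⟨ζ, hζ2, fun _ _ => hζ1⟩
      · exact ⟨1, by simp; positivity, fun h1 h2 => absurd ⟨h1, h2⟩ hn⟩
    choose ζ hζ1 hζ2 using hch
    have hζlim : Tendsto ζ atTop (𝓝 1) := by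
      rw [tendsto_iff_norm_sub_tendsto_zero]
      exact squeeze_zero (fun n => norm_nonneg _) (fun n => (hζ1 n).le)
        tendsto_one_div_add_atTop_nhds_zero_nat
    have hylim : Tendsto (fun n => x n + ζ n • v n) atTop (𝓝 η) := by
      have := hx.add (hζlim.smul hv)
      rwa [one_smul] at this
    have hQlim : Tendsto (fun n => Q (x n + ζ n • v n) (p (v n))) atTop
        (𝓝 (Q η (p w))) := by
      have h1 : Tendsto (fun n => Q (x n + ζ n • v n)) atTop (𝓝 (Q η)) :=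
        ((t.cont.continuousAt (t.isOpen.mem_nhds hηU)).tendsto).comp hylim
      have h2 : Tendsto (fun n => p (v n)) atTop (𝓝 (p w)) :=
        (p.continuous.tendsto w).comp hv
      exact ((isBoundedBilinearMap_apply (𝕜 := ℂ) (E := Fin d → ℂ)
        (F := E)).continuous.tendsto (Q η, p w)).comp (h1.prodMk_nhds h2)
    have hev : ∀ᶠ n in atTop, Q (x n + ζ n • v n) (p (v n)) = v n := by
      have hclose : ∀ᶠ n in atTop, dist (x n) ξ₀ < R / 4 :=
        (tendsto_iff_dist_tendsto_zero.mp hx).eventually_lt_const (by positivity)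
      have hvn : ∀ᶠ n in atTop, ‖v n‖ < R / 4 := hv.norm.eventually_lt_const hw
      filter_upwards [hclose, hvn, hylim (t.isOpen.mem_nhds hηU)] with n hn hn' hnU
      have hG := hζ2 n hn hn'
      have hGx := hxG n
      have hmemK : ζ n • v n ∈ K Γ (x n) := (K Γ _).smul_mem _ (hvK n)
      have hq := h.Gamma_add hGx hmemK hG.1
      have hKK := h.K_const hGx hG hq
      rw [← t.mem_K_iff hnU hG.2, hKK]
      exact hvK n
    exact tendsto_nhds_unique (hQlim.congr' hev) hv |>.symm ▸ rfl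
  have hQc : Q η (p (-w)) = -w := by
    rw [map_neg, map_neg, hwmem]
  have hline : ∀ z : ℂ, ‖z‖ ≤ 2 → η + z • Q η (p (-w)) ∈ Ω := by
    intro z hz
    rw [hQc]
    have e : η + z • -w = ξ₀ + (1 - z) • w := by
      rw [hη, smul_neg, sub_smul, one_smul]
      abel
    rw [e]
    apply hRΩ
    rw [mem_ball, dist_eq_norm, add_sub_cancel_left, norm_smul]
    have h1 : ‖1 - z‖ ≤ 3 := by
      calc ‖1 - z‖ ≤ ‖(1 : ℂ)‖ + ‖z‖ := norm_sub_le _ _
        _ ≤ 3 := by rw [norm_one]; linarith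
    calc ‖1 - z‖ * ‖w‖ ≤ 3 * ‖w‖ := by gcongr
      _ < R := by nlinarith [norm_nonneg w]
  obtain ⟨U', Q', t', hmem⟩ := t.transfer h hd (p (-w)) hηU hline
  refine ⟨U', p, Q', t', ?_⟩
  rw [hQc] at hmem
  have e : η + -w = ξ₀ := by
    rw [hη]
    abel
  rwa [e] at hmem

end Move

section Inner

variable {E F : Type*} [NormedAddCommGroup E] [InnerProductSpace ℂ E] [FiniteDimensional ℂ E]
  [NormedAddCommGroup F] [NormedSpace ℂ F] [FiniteDimensional ℂ F]
variable {Ω : Set E} {Γ : E → F} {k d : ℕ}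

/-- Through every singular point passes a plane of the dimension of the fibres, consisting of singular
points near the point. -/
theorem plane (h : AF Ω Γ k) (hd : d = finrank ℂ E - k) {ξ₀ : E} (hξ₀ : ξ₀ ∈ Ω)
    (hs : ¬ Reg Ω Γ k d ξ₀) :
    ∃ V : Submodule ℂ E, finrank ℂ V = d ∧
      ∀ᶠ η in 𝓝 ξ₀, η - ξ₀ ∈ V → η ∈ Ω ∧ ¬ Reg Ω Γ k d η := by
  obtain ⟨x, hxG, hxlim⟩ := mem_closure_iff_seq_limit.mp (h.G_dense hξ₀)
  have hfr : ∀ n, finrank ℂ (K Γ (x n)) = d := fun n => by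
    rw [h.finrank_K_eq (hxG n), hd]
  have hbas : ∀ n, ∃ b : Fin d → E, Orthonormal ℂ b ∧ ∀ i, b i ∈ K Γ (x n) := by
    intro n
    let b := (stdOrthonormalBasis ℂ (K Γ (x n))).reindex (finCongr (hfr n))
    exact ⟨fun i => (b i : E), b.orthonormal.comp_linearIsometry (K Γ (x n)).subtypeₗᵢ, fun i => (b i).2⟩
  choose b hbo hbK using hbas
  have hbs : ∀ n, b n ∈ Set.pi Set.univ (fun _ : Fin d => sphere (0 : E) 1) := by
    intro n i _
    rw [mem_sphere_zero_iff_norm]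
    exact (hbo n).1 i
  have : ProperSpace E := FiniteDimensional.proper ℂ E
  have hcomp : IsCompact (Set.pi Set.univ (fun _ : Fin d => sphere (0 : E) 1)) :=
    isCompact_univ_pi fun _ => isCompact_sphere (0 : E) 1
  obtain ⟨b₀, -, φ, hφ, hblim⟩ := hcomp.tendsto_subseq hbs
  have hblim' : ∀ i, Tendsto (fun n => b (φ n) i) atTop (𝓝 (b₀ i)) := fun i =>
    ((continuous_apply i).tendsto b₀).comp hblim
  have hon : Orthonormal ℂ b₀ := by
    classical
    rw [orthonormal_iff_ite]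
    intro i j
    have h1 : Tendsto (fun n => inner ℂ (b (φ n) i) (b (φ n) j)) atTop (𝓝 (inner ℂ (b₀ i) (b₀ j))) :=
      (hblim' i).inner (hblim' j)
    have h2 : (fun n => inner ℂ (b (φ n) i) (b (φ n) j)) = fun _ => if i = j then (1 : ℂ) else 0 := by
      funext n
      exact orthonormal_iff_ite.mp (hbo (φ n)) i j
    rw [h2] at h1
    exact (tendsto_nhds_unique h1 tendsto_const_nhds).symm ▸ rfl
  obtain ⟨R, hR, hRΩ⟩ := Metric.isOpen_iff.mp h.isOpen ξ₀ hξ₀
  refine ⟨Submodule.span ℂ (Set.range b₀), ?_, ?_⟩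
  · rw [finrank_span_eq_card hon.linearIndependent, Fintype.card_fin]
  · filter_upwards [ball_mem_nhds ξ₀ (show (0 : ℝ) < R / 4 by positivity)] with η hη hV
    rw [mem_ball, dist_eq_norm] at hη
    refine ⟨hRΩ ?_, ?_⟩
    · rw [mem_ball, dist_eq_norm]
      linarith
    intro hreg
    apply hs
    obtain ⟨c, hc⟩ := (Submodule.mem_span_range_iff_exists_fun ℂ).mp hV
    have hw : Tendsto (fun n => ∑ i, c i • b (φ n) i) atTop (𝓝 (η - ξ₀)) := by
      rw [← hc]
      exact tendsto_finsetSum _ fun i _ => (hblim' i).const_smul (c i)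
    refine move h hd hRΩ (fun n => hxG (φ n)) (hxlim.comp hφ.tendsto_atTop)
      (fun n => Submodule.sum_mem _ fun i _ => (K Γ _).smul_mem _ (hbK (φ n) i)) hw hη ?_
    rwa [add_sub_cancel]

end Inner

end Pool.Agent.AffFib
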