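import Mathlib

set_option autoImplicit false
set_option linter.unusedSectionVars false

open Set Filter Topology Metric

namespace Pool.Agent.AffFib

variable {E F : Type*} [NormedAddCommGroup E] [NormedSpace ℂ E]
  [NormedAddCommGroup F] [NormedSpace ℂ F] [CompleteSpace F]

/-- One-variable slices through a good point of a continuous function which is
differentiable off the zero set of an analytic function are holomorphic. -/
theorem slice_good {f : E → F} {U : Set E} (hf : ContinuousOn f U)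
    {m : E → ℂ} (hm : AnalyticOnNhd ℂ m U)
    (hd : ∀ x ∈ U, m x ≠ 0 → DifferentiableAt ℂ f x)
    {u v : E} (hmu : m u ≠ 0) {ρ : ℝ} (hρ : 0 < ρ)
    (hball : ∀ ζ ∈ ball (0 : ℂ) ρ, u + ζ • v ∈ U) :
    DifferentiableOn ℂ (fun ζ : ℂ => f (u + ζ • v)) (ball 0 ρ) := by
  have hline : ∀ ζ : ℂ, AnalyticAt ℂ (fun ζ : ℂ => u + ζ • v) ζ := by
    intro ζ
    fun_prop
  have hmline : AnalyticOnNhd ℂ (fun ζ : ℂ => m (u + ζ • v)) (ball 0 ρ) := by
    intro ζ hζ
    exact AnalyticAt.fun_comp (hm _ (hball ζ hζ)) (hline ζ)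
  have hcont : ContinuousOn (fun ζ : ℂ => f (u + ζ • v)) (ball 0 ρ) := by
    refine hf.comp ?_ hball
    exact (continuous_const.add (continuous_id.smul continuous_const)).continuousOn
  intro ζ₀ hζ₀
  refine AnalyticAt.differentiableWithinAt ?_
  apply Complex.analyticAt_of_differentiable_on_punctured_nhds_of_continuousAt
  · rcases (hmline ζ₀ hζ₀).eventually_eq_zero_or_eventually_ne_zero with h | h
    · exfalso
      have := hmline.eqOn_zero_of_preconnected_of_eventuallyEq_zero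
        (convex_ball _ _).isPreconnected hζ₀ h
      have h0 := this (mem_ball_self hρ)
      simp only [zero_smul, add_zero, Pi.zero_apply] at h0
      exact hmu h0
    · have hb : ∀ᶠ ζ in 𝓝[≠] ζ₀, ζ ∈ ball (0 : ℂ) ρ :=
        nhdsWithin_le_nhds (isOpen_ball.mem_nhds hζ₀)
      filter_upwards [h, hb] with ζ hζ hζb
      have h1 : DifferentiableAt ℂ f (u + ζ • v) := hd _ (hball ζ hζb) hζ
      exact DifferentiableAt.comp ζ h1 (hline ζ).differentiableAt
  · exact hcont.continuousAt (isOpen_ball.mem_nhds hζ₀)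

/-- The slices depend on the base point in a locally uniform way. -/
theorem slice_tendsto {f : E → F} {U : Set E} (hU : IsOpen U) (hf : ContinuousOn f U)
    {u v : E} {ρ : ℝ} (hball : ∀ ζ ∈ ball (0 : ℂ) ρ, u + ζ • v ∈ U)
    {l : Filter E} (hl : l ≤ 𝓝 u) :
    TendstoLocallyUniformlyOn (fun (y : E) (ζ : ℂ) => f (y + ζ • v))
      (fun ζ => f (u + ζ • v)) l (ball 0 ρ) := by
  rw [isOpen_ball.tendstoLocallyUniformlyOn_iff_forall_tendsto]
  intro ζ₀ hζ₀
  have h0 : Tendsto (fun y : E × ℂ => y.2) (l ×ˢ 𝓝 ζ₀) (𝓝 ζ₀) := tendsto_snd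
  have h0' : Tendsto (fun y : E × ℂ => y.1) (l ×ˢ 𝓝 ζ₀) (𝓝 u) := tendsto_fst.mono_right hl
  have h1 : Tendsto (fun y : E × ℂ => y.1 + y.2 • v) (l ×ˢ 𝓝 ζ₀) (𝓝 (u + ζ₀ • v)) :=
    h0'.add (h0.smul_const v)
  have h2 : Tendsto (fun y : E × ℂ => u + y.2 • v) (l ×ˢ 𝓝 ζ₀) (𝓝 (u + ζ₀ • v)) :=
    tendsto_const_nhds.add (h0.smul_const v)
  have hc : ContinuousAt f (u + ζ₀ • v) := hf.continuousAt (hU.mem_nhds (hball ζ₀ hζ₀))
  have h3 := (hc.tendsto.comp h2).prodMk_nhds (hc.tendsto.comp h1)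
  exact h3.mono_right (nhds_le_uniformity _)

/-- Hypotheses: `f` is continuous on `U`, and there is a dense set `G` of good points; near a
good point `f` is differentiable off the zero set of an analytic function. -/
structure Good (f : E → F) (U G : Set E) : Prop where
  isOpen : IsOpen U
  cont : ContinuousOn f U
  sub : G ⊆ U
  dense : U ⊆ closure G
  good : ∀ u ∈ G, ∃ m : E → ℂ, AnalyticOnNhd ℂ m U ∧ m u ≠ 0 ∧
    ∀ x ∈ U, m x ≠ 0 → DifferentiableAt ℂ f x

theorem Good.slice {f : E → F} {U G : Set E} (h : Good f U G) {u₀ v : E} {R ρ : ℝ}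
    (hρ : 0 < ρ) (hR : ball u₀ (2 * R) ⊆ U) (hv : ρ * ‖v‖ ≤ R) {y : E} (hy : y ∈ ball u₀ R) :
    DifferentiableOn ℂ (fun ζ : ℂ => f (y + ζ • v)) (ball 0 ρ) := by
  have key : ∀ y ∈ ball u₀ R, ∀ ζ ∈ ball (0 : ℂ) ρ, y + ζ • v ∈ U := by
    intro y hy ζ hζ
    apply hR
    rw [mem_ball, dist_eq_norm] at hy ⊢
    rw [mem_ball_zero_iff] at hζ
    have : y + ζ • v - u₀ = (y - u₀) + ζ • v := by abel
    rw [this]
    calc ‖(y - u₀) + ζ • v‖ ≤ ‖y - u₀‖ + ‖ζ • v‖ := norm_add_le _ _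
      _ = ‖y - u₀‖ + ‖ζ‖ * ‖v‖ := by rw [norm_smul]
      _ ≤ ‖y - u₀‖ + ρ * ‖v‖ := by gcongr
      _ < 2 * R := by linarith
  have hR0 : 0 < R := by
    rw [mem_ball] at hy
    exact lt_of_le_of_lt dist_nonneg hy
  have hyU : y ∈ U := by
    apply hR
    exact ball_subset_ball (by linarith) hy
  have hlim := slice_tendsto h.isOpen h.cont (key y hy) (l := 𝓝[G] y) nhdsWithin_le_nhds
  have : (𝓝[G] y).NeBot := mem_closure_iff_nhdsWithin_neBot.mp (h.dense hyU)
  refine hlim.differentiableOn ?_ isOpen_ball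
  have h1 : ∀ᶠ x in 𝓝[G] y, x ∈ ball u₀ R := nhdsWithin_le_nhds (isOpen_ball.mem_nhds hy)
  filter_upwards [h1, self_mem_nhdsWithin] with x hx hxG
  obtain ⟨m, hm, hmx, hd⟩ := h.good x hxG
  exact slice_good h.cont hm hd hmx hρ (key x hx)

/-- the directional derivative -/
noncomputable def D (f : E → F) (u v : E) : F := deriv (fun ζ : ℂ => f (u + ζ • v)) 0

theorem exists_radius {U : Set E} (hU : IsOpen U) {u : E} (hu : u ∈ U) (v : E) :
    ∃ R > 0, ball u (2 * R) ⊆ U ∧ ∃ ρ > 0, ρ * ‖v‖ ≤ R := by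
  obtain ⟨r, hr, hrU⟩ := Metric.isOpen_iff.mp hU u hu
  refine ⟨r / 2, by linarith, by convert hrU using 2; ring, r / 2 / (‖v‖ + 1), by positivity, ?_⟩
  rw [div_mul_eq_mul_div, div_le_iff₀ (by positivity)]
  nlinarith [norm_nonneg v]

theorem Good.tendsto_D {f : E → F} {U G : Set E} (h : Good f U G) {u : E} (hu : u ∈ U) (v : E) :
    Tendsto (fun y => D f y v) (𝓝 u) (𝓝 (D f u v)) := by
  obtain ⟨R, hR, hRU, ρ, hρ, hv⟩ := exists_radius h.isOpen hu v
  have hub : u ∈ ball u R := mem_ball_self hR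
  have hball : ∀ ζ ∈ ball (0 : ℂ) ρ, u + ζ • v ∈ U := by
    intro ζ hζ
    apply hRU
    rw [mem_ball_zero_iff] at hζ
    rw [mem_ball, dist_eq_norm]
    have : u + ζ • v - u = ζ • v := by abel
    rw [this, norm_smul]
    calc ‖ζ‖ * ‖v‖ ≤ ρ * ‖v‖ := by gcongr
      _ < 2 * R := by linarith
  have hlim := slice_tendsto h.isOpen h.cont hball (l := 𝓝 u) le_rfl
  have hF : ∀ᶠ y in 𝓝 u, DifferentiableOn ℂ (fun ζ : ℂ => f (y + ζ • v)) (ball 0 ρ) := by
    filter_upwards [isOpen_ball.mem_nhds hub] with y hy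
    exact h.slice hρ hRU hv hy
  have := (hlim.deriv hF isOpen_ball).tendsto_at (mem_ball_self hρ)
  exact this

theorem Good.hasDerivAt {f : E → F} {U G : Set E} (h : Good f U G) {u : E} (hu : u ∈ U) (v : E) :
    HasDerivAt (fun ζ : ℂ => f (u + ζ • v)) (D f u v) 0 := by
  obtain ⟨R, hR, hRU, ρ, hρ, hv⟩ := exists_radius h.isOpen hu v
  have := h.slice hρ hRU hv (mem_ball_self hR)
  exact (this.differentiableAt (isOpen_ball.mem_nhds (mem_ball_self hρ))).hasDerivAt

theorem D_eq_fderiv {f : E → F} {u : E} (hd : DifferentiableAt ℂ f u) (v : E) :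
    D f u v = fderiv ℂ f u v := by
  have h1 : HasDerivAt (fun ζ : ℂ => u + ζ • v) v 0 := by
    simpa using ((hasDerivAt_id (0 : ℂ)).smul_const v).const_add u
  have h2 : HasFDerivAt f (fderiv ℂ f u) (u + (0 : ℂ) • v) := by simpa using hd.hasFDerivAt
  exact (h2.comp_hasDerivAt (0 : ℂ) h1).deriv

theorem Good.diffAt {f : E → F} {U G : Set E} (h : Good f U G) {u : E} (hu : u ∈ G) :
    DifferentiableAt ℂ f u := by
  obtain ⟨m, _, hm, hd⟩ := h.good u hu
  exact hd u (h.sub hu) hm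

theorem Good.D_add {f : E → F} {U G : Set E} (h : Good f U G) {u : E} (hu : u ∈ U) (v w : E) :
    D f u (v + w) = D f u v + D f u w := by
  have : (𝓝[G] u).NeBot := mem_closure_iff_nhdsWithin_neBot.mp (h.dense hu)
  have h1 := (h.tendsto_D hu (v + w)).mono_left (nhdsWithin_le_nhds (s := G))
  have h2 := ((h.tendsto_D hu v).add (h.tendsto_D hu w)).mono_left (nhdsWithin_le_nhds (s := G))
  refine tendsto_nhds_unique h1 (h2.congr' ?_)
  filter_upwards [self_mem_nhdsWithin] with y hy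
  simp only [D_eq_fderiv (h.diffAt hy), map_add]

theorem Good.D_smul {f : E → F} {U G : Set E} (h : Good f U G) {u : E} (hu : u ∈ U) (c : ℂ)
    (v : E) : D f u (c • v) = c • D f u v := by
  have : (𝓝[G] u).NeBot := mem_closure_iff_nhdsWithin_neBot.mp (h.dense hu)
  have h1 := (h.tendsto_D hu (c • v)).mono_left (nhdsWithin_le_nhds (s := G))
  have h2 := ((h.tendsto_D hu v).const_smul c).mono_left (nhdsWithin_le_nhds (s := G))
  refine tendsto_nhds_unique h1 (h2.congr' ?_)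
  filter_upwards [self_mem_nhdsWithin] with y hy
  simp only [D_eq_fderiv (h.diffAt hy), map_smul]

/-- Riemann extension theorem for continuous functions, in several variables. -/
theorem Good.exists_fderiv [FiniteDimensional ℂ E] {f : E → F} {U G : Set E} (h : Good f U G) :
    ∃ A : E → (E →L[ℂ] F), ContinuousOn A U ∧ ∀ u ∈ U, HasFDerivAt f (A u) u := by
  have hex : ∀ u ∈ U, ∃ A : E →L[ℂ] F, ∀ v, A v = D f u v := by
    intro u hu
    exact ⟨LinearMap.toContinuousLinearMap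
      { toFun := fun v => D f u v
        map_add' := h.D_add hu
        map_smul' := h.D_smul hu }, fun v => rfl⟩
  choose! A hA using hex
  have hcont : ContinuousOn A U := by
    rw [continuousOn_clm_apply]
    intro v u hu
    have h1 : Tendsto (fun y => D f y v) (𝓝[U] u) (𝓝 (D f u v)) :=
      (h.tendsto_D hu v).mono_left nhdsWithin_le_nhds
    have h2 : ContinuousWithinAt (fun y => D f y v) U u := h1
    exact h2.congr (fun y hy => hA y hy v) (hA u hu v)
  refine ⟨A, hcont, fun u hu => ?_⟩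
  rw [hasFDerivAt_iff_isLittleO_nhds_zero, Asymptotics.isLittleO_iff]
  intro ε hε
  have hcA : ContinuousAt A u := hcont.continuousAt (h.isOpen.mem_nhds hu)
  obtain ⟨δ, hδ, hδA⟩ := Metric.continuousAt_iff.mp hcA ε hε
  obtain ⟨δ', hδ', hδU⟩ := Metric.isOpen_iff.mp h.isOpen u hu
  have hb : ball (0 : E) (min δ δ') ∈ 𝓝 (0 : E) := ball_mem_nhds _ (lt_min hδ hδ')
  filter_upwards [hb] with x hx
  rw [mem_ball_zero_iff, lt_min_iff] at hx
  have hseg : ∀ t ∈ Icc (0 : ℝ) 1, u + (t : ℂ) • x ∈ U ∧ ‖A (u + (t : ℂ) • x) - A u‖ < ε := by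
    intro t ht
    have hn : ‖(t : ℂ) • x‖ ≤ ‖x‖ := by
      rw [norm_smul, Complex.norm_real, Real.norm_of_nonneg ht.1]
      nlinarith [ht.2, norm_nonneg x]
    constructor
    · apply hδU
      rw [mem_ball, dist_eq_norm, add_sub_cancel_left]
      exact lt_of_le_of_lt hn hx.2
    · rw [← dist_eq_norm]
      apply hδA
      rw [dist_eq_norm, add_sub_cancel_left]
      exact lt_of_le_of_lt hn hx.1
  have hder : ∀ t ∈ Icc (0 : ℝ) 1, HasDerivWithinAt
      (fun t : ℝ => f (u + (t : ℂ) • x) - (t : ℂ) • A u x)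
      (A (u + (t : ℂ) • x) x - A u x) (Icc 0 1) t := by
    intro t ht
    have h1 := h.hasDerivAt (hseg t ht).1 x
    have h2 : HasDerivAt (fun ζ : ℂ => ζ - (t : ℂ)) 1 (t : ℂ) :=
      (hasDerivAt_id (t : ℂ)).sub_const _
    have h1' : HasDerivAt (fun ζ : ℂ => f (u + (t : ℂ) • x + ζ • x)) (D f (u + (t : ℂ) • x) x)
        ((t : ℂ) - (t : ℂ)) := by simpa using h1
    have h3 := HasDerivAt.scomp (h := fun ζ : ℂ => ζ - (t : ℂ)) (t : ℂ) h1' h2
    have h4 : HasDerivAt (fun ζ : ℂ => f (u + ζ • x)) (D f (u + (t : ℂ) • x) x) (t : ℂ) := by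
      have e : ((fun ζ : ℂ => f (u + (t : ℂ) • x + ζ • x)) ∘ fun ζ : ℂ => ζ - (t : ℂ))
          = fun ζ : ℂ => f (u + ζ • x) := by
        funext ζ
        simp only [Function.comp]
        congr 1
        rw [sub_smul]
        abel
      rw [e] at h3
      simpa using h3
    have h5 : HasDerivAt (fun ζ : ℂ => ζ • A u x) (A u x) (t : ℂ) := by
      simpa using (hasDerivAt_id (t : ℂ)).smul_const (A u x)
    have h7 : HasDerivAt (fun s : ℝ => (s : ℂ)) 1 t := Complex.ofRealCLM.hasDerivAt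
    have h6 := HasDerivAt.scomp (h := fun s : ℝ => (s : ℂ)) t (h4.sub h5) h7
    rw [← hA _ (hseg t ht).1, one_smul] at h6
    exact h6.hasDerivWithinAt
  have hbound : ∀ t ∈ Ico (0 : ℝ) 1, ‖A (u + (t : ℂ) • x) x - A u x‖ ≤ ε * ‖x‖ := by
    intro t ht
    have := (hseg t ⟨ht.1, ht.2.le⟩).2
    rw [← _root_.sub_apply]
    calc _ ≤ ‖A (u + (t : ℂ) • x) - A u‖ * ‖x‖ := ContinuousLinearMap.le_opNorm _ _
      _ ≤ ε * ‖x‖ := by gcongr
  have := norm_image_sub_le_of_norm_deriv_le_segment_01' hder hbound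
  have e : f (u + ((1 : ℝ) : ℂ) • x) - ((1 : ℝ) : ℂ) • A u x -
      (f (u + ((0 : ℝ) : ℂ) • x) - ((0 : ℝ) : ℂ) • A u x) = f (u + x) - f u - A u x := by
    simp
    abel
  rw [e] at this
  exact this

end Pool.Agent.AffFib
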