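import Pool.Agent.AffFib.Core

set_option autoImplicit false
set_option linter.unusedSectionVars false

open Set Filter Topology Metric Module Asymptotics

namespace Pool.Agent.AffFib

variable {E F : Type*} [NormedAddCommGroup E] [NormedSpace ℂ E] [FiniteDimensional ℂ E]
  [NormedAddCommGroup F] [NormedSpace ℂ F] [FiniteDimensional ℂ F]

/-- A local continuous trivialisation of the kernel field. -/
structure Triv (Ω : Set E) (Γ : E → F) (k d : ℕ) (U : Set E) (p : E →L[ℂ] (Fin d → ℂ))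
    (Q : E → ((Fin d → ℂ) →L[ℂ] E)) : Prop where
  isOpen : IsOpen U
  sub : U ⊆ Ω
  cont : ContinuousOn Q U
  pQ : ∀ u ∈ U, ∀ c, p (Q u c) = c
  range : ∀ u ∈ U, rk Γ u = k →
    LinearMap.range ((Q u : (Fin d → ℂ) →L[ℂ] E) : (Fin d → ℂ) →ₗ[ℂ] E) = K Γ u

namespace Triv

variable {Ω : Set E} {Γ : E → F} {k d : ℕ} {U : Set E} {p : E →L[ℂ] (Fin d → ℂ)}
  {Q : E → ((Fin d → ℂ) →L[ℂ] E)}

theorem mem_K_iff (t : Triv Ω Γ k d U p Q) {u : E} (hu : u ∈ U) (hr : rk Γ u = k) {v : E} :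
    v ∈ K Γ u ↔ Q u (p v) = v := by
  rw [← t.range u hu hr]
  constructor
  · rintro ⟨c, rfl⟩
    have := t.pQ u hu c
    simp only [ContinuousLinearMap.coe_coe]
    rw [this]
  · intro h
    exact ⟨p v, h⟩

theorem Q_mem (t : Triv Ω Γ k d U p Q) {u : E} (hu : u ∈ U) (hr : rk Γ u = k)
    (c : Fin d → ℂ) : Q u c ∈ K Γ u := by
  rw [t.mem_K_iff hu hr, t.pQ u hu c]

theorem Q_const (h : AF Ω Γ k) (t : Triv Ω Γ k d U p Q) {x y : E} (hx : x ∈ U)
    (hxr : rk Γ x = k) (hy : y ∈ U) (hyr : rk Γ y = k) (hyx : Γ y = Γ x) (c : Fin d → ℂ) :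
    Q y c = Q x c := by
  have h1 : Q y c ∈ K Γ y := t.Q_mem hy hyr c
  rw [h.K_const ⟨t.sub hx, hxr⟩ ⟨t.sub hy, hyr⟩ hyx, t.mem_K_iff hx hxr, t.pQ y hy c] at h1
  exact h1.symm

theorem cont_apply (t : Triv Ω Γ k d U p Q) (c : Fin d → ℂ) :
    ContinuousOn (fun u => Q u c) U :=
  t.cont.clm_apply continuousOn_const

theorem differentiableAt (h : AF Ω Γ k) (t : Triv Ω Γ k d U p Q) (c : Fin d → ℂ) {x : E}
    (hx : x ∈ U) (hxr : rk Γ x = k) : DifferentiableAt ℂ (fun u => Q u c) x := by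
  set w : E → E := fun u => Q u c with hw
  have hxΩ : x ∈ Ω := t.sub hx
  -- left inverse
  let B : E →L[ℂ] F × (Fin d → ℂ) := (fderiv ℂ Γ x).prod p
  have hB : LinearMap.ker (B : E →ₗ[ℂ] F × (Fin d → ℂ)) = ⊥ := by
    rw [LinearMap.ker_eq_bot']
    intro z hz
    have hz' : B z = 0 := hz
    have h1 : fderiv ℂ Γ x z = 0 := congrArg Prod.fst hz'
    have h2 : p z = 0 := congrArg Prod.snd hz'
    have h3 : z ∈ K Γ x := mem_K.mpr h1
    rw [t.mem_K_iff hx hxr, h2, map_zero] at h3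
    exact h3.symm
  obtain ⟨L₀, hL₀⟩ := LinearMap.exists_leftInverse_of_injective _ hB
  let L : (F × (Fin d → ℂ)) →L[ℂ] E := LinearMap.toContinuousLinearMap L₀
  have hL : ∀ z, L (B z) = z := fun z => LinearMap.congr_fun hL₀ z
  set D : E →L[ℂ] E →L[ℂ] F := fderiv ℂ (fderiv ℂ Γ) x with hD
  have hDΓ : HasFDerivAt (fderiv ℂ Γ) D x :=
    ((h.analytic.fderiv) x hxΩ).differentiableAt.hasFDerivAt
  have hwc : ContinuousAt w x := (t.cont_apply c).continuousAt (t.isOpen.mem_nhds hx)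
  set Φ : E → F := fun y => (fderiv ℂ Γ y - fderiv ℂ Γ x) (w y) with hΦ
  have hΦx : Φ x = 0 := by simp [hΦ]
  have hΦd : HasFDerivAt Φ (D.flip (w x)) x := by
    rw [hasFDerivAt_iff_isLittleO]
    have e : (fun y => Φ y - Φ x - (D.flip (w x)) (y - x)) =
        fun y => (fderiv ℂ Γ y - fderiv ℂ Γ x - D (y - x)) (w y) + D (y - x) (w y - w x) := by
      funext y
      rw [hΦx]
      simp only [hΦ, ContinuousLinearMap.flip_apply, _root_.sub_apply, map_sub, sub_zero]
      abel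
    rw [e]
    apply IsLittleO.add
    · have h1 : (fun y => fderiv ℂ Γ y - fderiv ℂ Γ x - D (y - x)) =o[𝓝 x] fun y => y - x :=
        hasFDerivAt_iff_isLittleO.mp hDΓ
      have h2 : w =O[𝓝 x] fun _ => (1 : ℝ) := hwc.tendsto.isBigO_one ℝ
      have h3 := h1.norm_norm.mul_isBigO h2.norm_norm
      simp only [norm_one, mul_one] at h3
      refine (IsBigO.trans_isLittleO ?_ h3).of_norm_right
      exact IsBigO.of_norm_le fun y => ContinuousLinearMap.le_opNorm _ _
    · have h1 : (fun y => w y - w x) =o[𝓝 x] fun _ => (1 : ℝ) := by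
        rw [isLittleO_one_iff]
        exact tendsto_sub_nhds_zero_iff.mpr hwc.tendsto
      have h2 : (fun y => D (y - x)) =O[𝓝 x] fun y => y - x := D.isBigO_comp _ _
      have h3 := h2.norm_norm.mul_isLittleO h1.norm_norm
      simp only [norm_one, mul_one] at h3
      refine (IsBigO.trans_isLittleO ?_ h3).of_norm_right
      exact IsBigO.of_norm_le fun y => ContinuousLinearMap.le_opNorm _ _
  have hev : w =ᶠ[𝓝 x] fun y => w x - L (Φ y, 0) := by
    filter_upwards [h.G_nhds ⟨hxΩ, hxr⟩, t.isOpen.mem_nhds hx] with y hyG hyU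
    have h1 : fderiv ℂ Γ y (w y) = 0 := mem_K.mp (t.Q_mem hyU hyG.2 c)
    have h2 : fderiv ℂ Γ x (w x) = 0 := mem_K.mp (t.Q_mem hx hxr c)
    have h3 : p (w y) = c := t.pQ y hyU c
    have h4 : p (w x) = c := t.pQ x hx c
    have h5 : B (w x - w y) = (Φ y, 0) := by
      simp only [B, ContinuousLinearMap.prod_apply, map_sub, h2, h3, h4, hΦ,
        _root_.sub_apply, h1, Prod.mk_sub_mk, sub_self]
    have h6 := hL (w x - w y)
    rw [h5] at h6
    rw [h6]
    abel
  have hdiff : DifferentiableAt ℂ (fun y => w x - L (Φ y, 0)) x := by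
    have h1 : DifferentiableAt ℂ (fun y => (Φ y, (0 : Fin d → ℂ))) x :=
      hΦd.differentiableAt.prodMk (differentiableAt_const _)
    exact (L.differentiableAt.comp x h1).const_sub (w x)
  exact hdiff.congr_of_eventuallyEq hev

theorem good (h : AF Ω Γ k) (t : Triv Ω Γ k d U p Q) (c : Fin d → ℂ) :
    Good (fun u => Q u c) U (AF.G Ω Γ k ∩ U) where
  isOpen := t.isOpen
  cont := t.cont_apply c
  sub := inter_subset_right
  dense := by
    intro u hu
    rw [mem_closure_iff_nhds]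
    intro N hN
    have h1 : u ∈ closure (AF.G Ω Γ k) := h.G_dense (t.sub hu)
    rw [mem_closure_iff_nhds] at h1
    obtain ⟨y, ⟨hyN, hyU⟩, hyG⟩ := h1 (N ∩ U) (inter_mem hN (t.isOpen.mem_nhds hu))
    exact ⟨y, hyN, hyG, hyU⟩
  good := by
    rintro u ⟨huG, huU⟩
    obtain ⟨m, hm, hmu, hmr⟩ := h.exists_minor huG.2
    refine ⟨m, hm.mono t.sub, hmu, fun x hx hmx => ?_⟩
    exact t.differentiableAt h c hx (hmr x (t.sub hx) hmx)

/-- injectivity of `1 + z Dw(u)` at maximal rank points -/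
theorem inj (h : AF Ω Γ k) (t : Triv Ω Γ k d U p Q) (c : Fin d → ℂ) {u : E} (hu : u ∈ U)
    (hur : rk Γ u = k) {A : E →L[ℂ] E} (hA : HasFDerivAt (fun u => Q u c) A u) {z : ℂ}
    (hz : u + z • Q u c ∈ Ω) {x : E} (hx : x + z • A x = 0) : x = 0 := by
  set w : E → E := fun u => Q u c with hw
  have huG : u ∈ AF.G Ω Γ k := ⟨t.sub hu, hur⟩
  have hgd : HasFDerivAt (fun y => y + z • w y) (ContinuousLinearMap.id ℂ E + z • A) u :=
    (hasFDerivAt_id u).add (hA.const_smul z)
  have hev : (fun y => Γ (y + z • w y)) =ᶠ[𝓝 u] Γ := by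
    have h1 : ∀ᶠ y in 𝓝 u, y + z • w y ∈ Ω :=
      hgd.continuousAt.eventually (h.isOpen.mem_nhds hz)
    filter_upwards [h1, h.G_nhds huG, t.isOpen.mem_nhds hu] with y hy hyG hyU
    exact h.Gamma_add hyG ((K Γ y).smul_mem z (t.Q_mem hyU hyG.2 c)) hy
  have hd1 : HasFDerivAt (fun y => Γ (y + z • w y))
      ((fderiv ℂ Γ (u + z • w u)).comp (ContinuousLinearMap.id ℂ E + z • A)) u := by
    have := (h.analytic _ hz).differentiableAt.hasFDerivAt
    exact HasFDerivAt.comp u this hgd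
  have hd2 : HasFDerivAt (fun y => Γ (y + z • w y)) (fderiv ℂ Γ u) u :=
    (h.analytic _ (t.sub hu)).differentiableAt.hasFDerivAt.congr_of_eventuallyEq hev
  have heq := hd1.unique hd2
  have hxK : x ∈ K Γ u := by
    rw [mem_K, ← heq]
    simp only [ContinuousLinearMap.comp_apply, _root_.add_apply, ContinuousLinearMap.id_apply,
      _root_.smul_apply, hx, map_zero]
  have hAx : A x = 0 := by
    have h1 : HasDerivAt (fun s : ℂ => u + s • x) x 0 := by
      simpa using ((hasDerivAt_id (0 : ℂ)).smul_const x).const_add u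
    have h2 : HasFDerivAt w A (u + (0 : ℂ) • x) := by simpa using hA
    have h3 : HasDerivAt (w ∘ fun s : ℂ => u + s • x) (A x) 0 :=
      HasFDerivAt.comp_hasDerivAt (0 : ℂ) h2 h1
    have h4 : (w ∘ fun s : ℂ => u + s • x) =ᶠ[𝓝 0] fun _ => w u := by
      have h5 : Tendsto (fun s : ℂ => u + s • x) (𝓝 0) (𝓝 u) := by
        simpa using h1.continuousAt.tendsto
      filter_upwards [h5 (h.G_nhds huG), h5 (t.isOpen.mem_nhds hu)] with s hsG hsU
      exact t.Q_const h hu hur hsU hsG.2 (h.Gamma_add huG ((K Γ u).smul_mem s hxK) hsG.1) c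
    have h6 : HasDerivAt (w ∘ fun s : ℂ => u + s • x) 0 0 :=
      (hasDerivAt_const (0 : ℂ) (w u)).congr_of_eventuallyEq h4
    exact h3.unique h6
  rw [hAx, smul_zero, add_zero] at hx
  exact hx

/-- the local homeomorphism `u ↦ u + w(u)` -/
theorem exists_homeo (h : AF Ω Γ k) (t : Triv Ω Γ k d U p Q) (c : Fin d → ℂ) {η : E}
    (hη : η ∈ U) (hline : ∀ z : ℂ, ‖z‖ ≤ 2 → η + z • Q η c ∈ Ω) :
    ∃ e : OpenPartialHomeomorph E E, η ∈ e.source ∧ ∀ u, e u = u + Q u c := by
  obtain ⟨A, hAc, hAd⟩ := (t.good h c).exists_fderiv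
  set w : E → E := fun u => Q u c with hw
  have hwc : ContinuousAt w η := (t.cont_apply c).continuousAt (t.isOpen.mem_nhds hη)
  have hAη : ContinuousAt A η := hAc.continuousAt (t.isOpen.mem_nhds hη)
  -- eventually the discs stay in Ω
  have hdisc : ∀ᶠ u in 𝓝 η, ∀ z ∈ closedBall (0 : ℂ) 2, u + z • w u ∈ Ω := by
    apply (isCompact_closedBall (0 : ℂ) 2).eventually_forall_of_forall_eventually
    intro z hz
    have h1 : Tendsto (fun y : E × ℂ => y.1 + y.2 • w y.1) (𝓝 (η, z)) (𝓝 (η + z • w η)) := by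
      have ha : Tendsto (fun y : E × ℂ => y.1) (𝓝 (η, z)) (𝓝 η) := continuous_fst.tendsto (η, z)
      have hb : Tendsto (fun y : E × ℂ => y.2) (𝓝 (η, z)) (𝓝 z) := continuous_snd.tendsto (η, z)
      exact ha.add (hb.smul (hwc.tendsto.comp ha))
    exact h1 (h.isOpen.mem_nhds (hline z (by simpa using hz)))
  -- lower bound for the determinant
  have hdet : ∀ᶠ u in 𝓝[AF.G Ω Γ k] η, (1 / 2 : ℝ) ^ (finrank ℂ E) ≤
      ‖ContinuousLinearMap.det (1 + A u)‖ := by
    filter_upwards [nhdsWithin_le_nhds hdisc, self_mem_nhdsWithin,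
      nhdsWithin_le_nhds (t.isOpen.mem_nhds hη)] with u hu1 huG huU
    have := det_lower (A u : E →ₗ[ℂ] E) (fun z hz x hx =>
      t.inj h c huU huG.2 (hAd u huU) (hu1 z (by simpa using hz)) hx)
    exact this
  have hne : (𝓝[AF.G Ω Γ k] η).NeBot :=
    mem_closure_iff_nhdsWithin_neBot.mp (h.G_dense (t.sub hη))
  have hlim : Tendsto (fun u => ‖ContinuousLinearMap.det (1 + A u)‖) (𝓝[AF.G Ω Γ k] η)
      (𝓝 ‖ContinuousLinearMap.det (1 + A η)‖) := by
    have h1 : ContinuousAt (fun u => ‖ContinuousLinearMap.det (1 + A u)‖) η := by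
      have h2 : ContinuousAt (fun u => 1 + A u) η := continuousAt_const.add hAη
      exact (ContinuousLinearMap.continuous_det.continuousAt.comp h2).norm
    exact h1.tendsto.mono_left nhdsWithin_le_nhds
  have hge : (1 / 2 : ℝ) ^ (finrank ℂ E) ≤ ‖ContinuousLinearMap.det (1 + A η)‖ :=
    ge_of_tendsto hlim hdet
  have hdet0 : ContinuousLinearMap.det (1 + A η) ≠ 0 := by
    intro h0
    rw [h0, norm_zero] at hge
    have : (0 : ℝ) < (1 / 2 : ℝ) ^ (finrank ℂ E) := by positivity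
    linarith
  have hstrict : HasStrictFDerivAt w (A η) η := by
    apply hasStrictFDerivAt_of_hasFDerivAt_of_continuousAt _ hAη
    filter_upwards [t.isOpen.mem_nhds hη] with u hu
    exact hAd u hu
  have hg : HasStrictFDerivAt (fun u => u + w u)
      ((ContinuousLinearMap.toContinuousLinearEquivOfDetNeZero (1 + A η) hdet0 :
        E ≃L[ℂ] E) : E →L[ℂ] E) η := by
    rw [ContinuousLinearMap.coe_toContinuousLinearEquivOfDetNeZero]
    exact (hasStrictFDerivAt_id η).add hstrict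
  have : CompleteSpace E := FiniteDimensional.complete ℂ E
  exact ⟨hg.toOpenPartialHomeomorph (fun u => u + w u), hg.mem_toOpenPartialHomeomorph_source,
    fun u => rfl⟩

/-- Transfer of a trivialisation from `η` to `η + Q η c`. -/
theorem transfer (h : AF Ω Γ k) (t : Triv Ω Γ k d U p Q) (hd : d = finrank ℂ E - k)
    (c : Fin d → ℂ) {η : E}
    (hη : η ∈ U) (hline : ∀ z : ℂ, ‖z‖ ≤ 2 → η + z • Q η c ∈ Ω) :
    ∃ (U' : Set E) (Q' : E → ((Fin d → ℂ) →L[ℂ] E)), Triv Ω Γ k d U' p Q' ∧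
      η + Q η c ∈ U' := by
  obtain ⟨e, heη, he⟩ := t.exists_homeo h c hη hline
  have h1Ω : η + Q η c ∈ Ω := by simpa using hline 1 (by simp)
  refine ⟨(e.target ∩ e.symm ⁻¹' U) ∩ Ω, fun ξ => Q (e.symm ξ), ?_, ?_⟩
  · refine ⟨?_, inter_subset_right, ?_, ?_, ?_⟩
    · exact (e.isOpen_inter_preimage_symm t.isOpen).inter h.isOpen
    · refine t.cont.comp (e.continuousOn_symm.mono ?_) ?_
      · exact fun x hx => hx.1.1
      · exact fun x hx => hx.1.2
    · rintro ξ ⟨⟨_, hξ⟩, _⟩ c'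
      exact t.pQ _ hξ c'
    · rintro ξ ⟨⟨hξt, hξU⟩, hξΩ⟩ hξr
      have hξG : ξ ∈ AF.G Ω Γ k := ⟨hξΩ, hξr⟩
      set u := e.symm ξ with hu
      have huU : u ∈ U := hξU
      have hus : u ∈ e.source := e.map_target hξt
      have heu : e u = ξ := e.right_inv hξt
      have hne : (𝓝[AF.G Ω Γ k] u).NeBot :=
        mem_closure_iff_nhdsWithin_neBot.mp (h.G_dense (t.sub huU))
      have htend : Tendsto e (𝓝[AF.G Ω Γ k] u) (𝓝 ξ) := by
        have := (e.continuousAt hus).tendsto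
        rw [heu] at this
        exact this.mono_left nhdsWithin_le_nhds
      have hzero : ∀ c', fderiv ℂ Γ ξ (Q u c') = 0 := by
        intro c'
        have hl1 : Tendsto (fun y => fderiv ℂ Γ (e y)) (𝓝[AF.G Ω Γ k] u)
            (𝓝 (fderiv ℂ Γ ξ)) :=
          ((h.analytic.fderiv ξ hξΩ).continuousAt.tendsto).comp htend
        have hl2 : Tendsto (fun y => Q y c') (𝓝[AF.G Ω Γ k] u) (𝓝 (Q u c')) :=
          ((t.cont_apply c').continuousAt (t.isOpen.mem_nhds huU)).tendsto.mono_left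
            nhdsWithin_le_nhds
        have hl3 : Tendsto (fun y => fderiv ℂ Γ (e y) (Q y c')) (𝓝[AF.G Ω Γ k] u)
            (𝓝 (fderiv ℂ Γ ξ (Q u c'))) :=
          ((isBoundedBilinearMap_apply (𝕜 := ℂ) (E := E) (F := F)).continuous.tendsto
            (fderiv ℂ Γ ξ, Q u c')).comp (hl1.prodMk_nhds hl2)
        have hev : ∀ᶠ y in 𝓝[AF.G Ω Γ k] u, fderiv ℂ Γ (e y) (Q y c') = 0 := by
          filter_upwards [htend (h.G_nhds hξG), self_mem_nhdsWithin,
            nhdsWithin_le_nhds (t.isOpen.mem_nhds huU)] with y hyG' hyG hyU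
          have hyG'' : e y ∈ AF.G Ω Γ k := hyG'
          have hyG2 : y ∈ AF.G Ω Γ k := hyG
          have hq : Γ (e y) = Γ y := by
            rw [he y] at hyG'' ⊢
            exact h.Gamma_add hyG2 (t.Q_mem hyU hyG2.2 c) hyG''.1
          have hK : K Γ (e y) = K Γ y := h.K_const hyG2 hyG'' hq
          have := t.Q_mem hyU hyG2.2 c'
          rw [← hK, mem_K] at this
          exact this
        exact tendsto_nhds_unique (hl3.congr' hev) tendsto_const_nhds
      have hle : LinearMap.range ((Q u : (Fin d → ℂ) →L[ℂ] E) : (Fin d → ℂ) →ₗ[ℂ] E) ≤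
          K Γ ξ := by
        rintro _ ⟨c', rfl⟩
        exact mem_K.mpr (hzero c')
      apply Submodule.eq_of_le_of_finrank_eq hle
      rw [h.finrank_K_eq hξG, ← hd]
      have hinj : Function.Injective ((Q u : (Fin d → ℂ) →L[ℂ] E) : (Fin d → ℂ) →ₗ[ℂ] E) := by
        intro a b hab
        have := congrArg p (show Q u a = Q u b from hab)
        rwa [t.pQ u huU, t.pQ u huU] at this
      rw [LinearMap.finrank_range_of_inj hinj]
      simp
  · rw [← he η]
    refine ⟨⟨e.map_source heη, ?_⟩, ?_⟩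
    · show e.symm (e η) ∈ U
      rw [e.left_inv heη]
      exact hη
    · rw [he η]
      exact h1Ω

end Triv

end Pool.Agent.AffFib
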